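import Mathlib

/-!
# An injective map of `(0,2)` into `(0,1)` with infinite approximate difference quotients
(MP_868b62_an, Q1)

`φ(x) = 1/8 + ∑ E_k(x) w_k`, where the integer digit `E_k(x)` encodes the `k`-th binary digit of
`x` together with a block of `k` binary digits of `x` at a depth `m_k` enormous with respect to
`k`, and `w_k = 2^(-2(k+1)²)`. At the scales `h ∈ (r_{k+1}, r_k]` the digit `E_k(x + h)` differs
from `E_k(x)` for most `h`, and then `|φ(x + h) - φ(x)| ≥ (2/3) w_k`, which is much larger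
than `h`.
-/

set_option autoImplicit false

open Set Filter Topology MeasureTheory

namespace Pool.Agent.Results.MP_868b62_an.DigitMap

/-- The approximate lower limit of `g` at `0` from the right: the supremum in `[-∞, +∞]` of the
reals `t` such that `|{h ∈ (0, r) : g(h) < t}| / r → 0` as `r → 0+`. -/
noncomputable def apLiminf (g : ℝ → ℝ) : EReal :=
  sSup ((fun t : ℝ => (t : EReal)) '' {t : ℝ | Tendsto
    (fun r : ℝ => (volume {h : ℝ | 0 < h ∧ h < r ∧ g h < t}).toReal / r) (𝓝[>] 0) (𝓝 0)})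

/-- exponents -/
def ex (k : ℕ) : ℕ := 2 * (k + 1) ^ 2

/-- weights -/
noncomputable def w (k : ℕ) : ℝ := (1 / 2) ^ ex k

/-- scales -/
noncomputable def rr (k : ℕ) : ℝ := (1 / 2) ^ (ex k + (k + 1))

/-- depths -/
def dep (k : ℕ) : ℕ := ex (k + 1) + (k + 2) + k

/-- the digits -/
noncomputable def E (k : ℕ) (x : ℝ) : ℤ :=
  2 * (⌊x * 2 ^ dep k⌋ % 2 ^ k) + ⌊x * 2 ^ k⌋ % 2

lemma w_pos (k : ℕ) : 0 < w k := by unfold w; positivity

lemma rr_pos (k : ℕ) : 0 < rr k := by unfold rr; positivity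

lemma E_nonneg (k : ℕ) (x : ℝ) : 0 ≤ E k x := by
  have h1 : (0 : ℤ) < 2 ^ k := by positivity
  have h2 := Int.emod_nonneg ⌊x * 2 ^ dep k⌋ h1.ne'
  have h3 := Int.emod_nonneg ⌊x * 2 ^ k⌋ (by norm_num : (2 : ℤ) ≠ 0)
  unfold E
  omega

lemma E_lt (k : ℕ) (x : ℝ) : E k x < 2 ^ (k + 1) := by
  have h1 : (0 : ℤ) < 2 ^ k := by positivity
  have h2 := Int.emod_lt_of_pos ⌊x * 2 ^ dep k⌋ h1
  have h3 := Int.emod_lt_of_pos ⌊x * 2 ^ k⌋ (by norm_num : (0 : ℤ) < 2)
  unfold E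
  rw [pow_succ]
  omega

lemma ex_ge (k i : ℕ) : ex k + 2 * (i + 1) + (k + 1 + i + 1) ≤ ex (k + 1 + i) := by
  unfold ex
  nlinarith [Nat.zero_le (k * i)]

lemma term_le (k i : ℕ) : (2 : ℝ) ^ (k + 1 + i + 1) * w (k + 1 + i) ≤ w k * (1 / 4) ^ (i + 1) := by
  have h1 : w (k + 1 + i) ≤ (1 / 2 : ℝ) ^ (ex k + 2 * (i + 1) + (k + 1 + i + 1)) :=
    pow_le_pow_of_le_one (by norm_num) (by norm_num) (ex_ge k i)
  have h2 : (1 / 2 : ℝ) ^ (ex k + 2 * (i + 1) + (k + 1 + i + 1))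
      = w k * (1 / 4) ^ (i + 1) * (1 / 2) ^ (k + 1 + i + 1) := by
    rw [pow_add, pow_add, pow_mul, w]
    norm_num
  have h3 : (2 : ℝ) ^ (k + 1 + i + 1) * (1 / 2) ^ (k + 1 + i + 1) = 1 := by
    rw [← mul_pow]; norm_num
  calc (2 : ℝ) ^ (k + 1 + i + 1) * w (k + 1 + i)
      ≤ 2 ^ (k + 1 + i + 1) * (w k * (1 / 4) ^ (i + 1) * (1 / 2) ^ (k + 1 + i + 1)) := by
        rw [← h2]; gcongr
    _ = w k * (1 / 4) ^ (i + 1) * (2 ^ (k + 1 + i + 1) * (1 / 2) ^ (k + 1 + i + 1)) := by ring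
    _ = w k * (1 / 4) ^ (i + 1) := by rw [h3, mul_one]

lemma hasSum_tail (k : ℕ) : HasSum (fun i : ℕ => w k * (1 / 4 : ℝ) ^ (i + 1)) (w k / 3) := by
  have h := (hasSum_geometric_of_lt_one (by norm_num : (0 : ℝ) ≤ 1 / 4)
    (by norm_num : (1 / 4 : ℝ) < 1)).mul_left (w k * (1 / 4))
  have e1 : (fun i : ℕ => w k * (1 / 4) * (1 / 4 : ℝ) ^ i) = fun i => w k * (1 / 4) ^ (i + 1) := by
    funext i; rw [pow_succ]; ring
  rw [e1] at h
  have e2 : w k * (1 / 4) * (1 - 1 / 4 : ℝ)⁻¹ = w k / 3 := by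
    rw [show (1 - 1 / 4 : ℝ)⁻¹ = 4 / 3 by norm_num]
    ring
  rw [e2] at h
  exact h

/-- the terms of the series -/
noncomputable def term (x : ℝ) (k : ℕ) : ℝ := E k x * w k

lemma term_nonneg (x : ℝ) (k : ℕ) : 0 ≤ term x k :=
  mul_nonneg (by exact_mod_cast E_nonneg k x) (w_pos k).le

lemma term_le' (x : ℝ) (k : ℕ) : term x k ≤ 2 ^ (k + 1) * w k := by
  have : (E k x : ℝ) ≤ 2 ^ (k + 1) := by exact_mod_cast (E_lt k x).le
  exact mul_le_mul_of_nonneg_right this (w_pos k).le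

lemma summable_tail (x : ℝ) (k : ℕ) : Summable fun i => term x (i + (k + 1)) := by
  refine Summable.of_nonneg_of_le (fun i => term_nonneg _ _) (fun i => ?_) (hasSum_tail k).summable
  have := term_le' x (i + (k + 1))
  rw [show i + (k + 1) = k + 1 + i by ring] at this ⊢
  exact this.trans (term_le k i)

lemma summable_term (x : ℝ) : Summable (term x) :=
  (summable_nat_add_iff 1).1 (summable_tail x 0)

/-- the map -/
noncomputable def φ (x : ℝ) : ℝ := 1 / 8 + ∑' k, term x k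

lemma tail_bound (x y : ℝ) (k : ℕ) :
    |∑' i, (term x (i + (k + 1)) - term y (i + (k + 1)))| ≤ w k / 3 := by
  have h := tsum_of_norm_bounded (f := fun i => term x (i + (k + 1)) - term y (i + (k + 1)))
    (hasSum_tail k) (fun i => ?_)
  · simpa [Real.norm_eq_abs] using h
  · rw [Real.norm_eq_abs, abs_le]
    have h1 := term_le' x (i + (k + 1))
    have h2 := term_le' y (i + (k + 1))
    have h3 := term_nonneg x (i + (k + 1))
    have h4 := term_nonneg y (i + (k + 1))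
    have h5 := term_le k i
    rw [show i + (k + 1) = k + 1 + i by ring] at *
    constructor <;> linarith

/-- the first differing digit dominates -/
lemma first_diff {x y : ℝ} {k : ℕ} (heq : ∀ i < k, E i x = E i y) (hne : E k x ≠ E k y) :
    2 / 3 * w k ≤ |φ x - φ y| := by
  have hx := summable_term x
  have hy := summable_term y
  have h1 : φ x - φ y = ∑' i, (term x i - term y i) := by
    rw [hx.tsum_sub hy, φ, φ]; ring
  have h2 := (hx.sub hy).sum_add_tsum_nat_add (k + 1)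
  have h3 : ∑ i ∈ Finset.range (k + 1), (term x i - term y i) = term x k - term y k := by
    rw [Finset.sum_range_succ, Finset.sum_eq_zero, zero_add]
    intro i hi
    rw [term, term, heq i (Finset.mem_range.1 hi), sub_self]
  rw [h3] at h2
  have h4 := tail_bound x y k
  have h5 : w k ≤ |term x k - term y k| := by
    rw [term, term, ← sub_mul, abs_mul, abs_of_pos (w_pos k)]
    have : (1 : ℝ) ≤ |(E k x : ℝ) - E k y| := by
      have h6 : (1 : ℤ) ≤ |E k x - E k y| := Int.one_le_abs (sub_ne_zero.2 hne)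
      exact_mod_cast h6
    nlinarith [w_pos k]
  rw [h1, ← h2]
  set A := term x k - term y k
  set B := ∑' i, (term x (i + (k + 1)) - term y (i + (k + 1)))
  have h6 : |A| ≤ |A + B| + |B| := by
    have := abs_sub (A + B) B
    rwa [add_sub_cancel_right] at this
  linarith

lemma w_anti {i k : ℕ} (h : i ≤ k) : w k ≤ w i := by
  apply pow_le_pow_of_le_one (by norm_num) (by norm_num)
  unfold ex
  gcongr

lemma diff_ge {x y : ℝ} {k : ℕ} (hne : E k x ≠ E k y) : 2 / 3 * w k ≤ |φ x - φ y| := by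
  classical
  have hex : ∃ j, E j x ≠ E j y := ⟨k, hne⟩
  have h1 := Nat.find_spec hex
  have h2 : Nat.find hex ≤ k := Nat.find_min' hex hne
  have h3 : ∀ i < Nat.find hex, E i x = E i y := fun i hi => not_not.1 (Nat.find_min hex hi)
  have h4 := first_diff h3 h1
  have h5 := w_anti h2
  linarith

lemma floor_two_mul (u : ℝ) : 2 * ⌊u⌋ ≤ ⌊2 * u⌋ ∧ ⌊2 * u⌋ ≤ 2 * ⌊u⌋ + 1 := by
  constructor
  · rw [Int.le_floor]
    push_cast
    linarith [Int.floor_le u]
  · have h : ⌊2 * u⌋ < 2 * ⌊u⌋ + 2 := by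
      rw [Int.floor_lt]
      push_cast
      linarith [Int.lt_floor_add_one u]
    omega

lemma injOn_φ : InjOn φ (Ioo 0 2) := by
  intro x hx y hy hxy
  have hE : ∀ k, E k x = E k y := by
    intro k
    by_contra hne
    have := diff_ge hne
    rw [hxy, sub_self, abs_zero] at this
    linarith [w_pos k]
  have hb : ∀ k : ℕ, ⌊x * 2 ^ k⌋ % 2 = ⌊y * 2 ^ k⌋ % 2 := by
    intro k
    have := hE k
    unfold E at this
    omega
  have hf : ∀ k : ℕ, ⌊x * 2 ^ k⌋ = ⌊y * 2 ^ k⌋ := by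
    intro k
    induction k with
    | zero =>
      have h0 := hb 0
      have h1 : 0 ≤ ⌊x * 2 ^ 0⌋ := Int.floor_nonneg.2 (by simpa using hx.1.le)
      have h2 : ⌊x * 2 ^ 0⌋ < 2 := by rw [Int.floor_lt]; simpa using hx.2
      have h3 : 0 ≤ ⌊y * 2 ^ 0⌋ := Int.floor_nonneg.2 (by simpa using hy.1.le)
      have h4 : ⌊y * 2 ^ 0⌋ < 2 := by rw [Int.floor_lt]; simpa using hy.2
      omega
    | succ k ih =>
      have h0 := hb (k + 1)
      have e1 : x * 2 ^ (k + 1) = 2 * (x * 2 ^ k) := by ring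
      have e2 : y * 2 ^ (k + 1) = 2 * (y * 2 ^ k) := by ring
      rw [e1, e2] at h0 ⊢
      have h1 := floor_two_mul (x * 2 ^ k)
      have h2 := floor_two_mul (y * 2 ^ k)
      omega
  by_contra hne
  have hpos : 0 < |x - y| := abs_pos.2 (sub_ne_zero.2 hne)
  obtain ⟨k, hk⟩ := pow_unbounded_of_one_lt (1 / |x - y|) (by norm_num : (1 : ℝ) < 2)
  have h1 := Int.abs_sub_lt_one_of_floor_eq_floor (hf k)
  rw [← sub_mul, abs_mul, abs_of_pos (by positivity : (0 : ℝ) < 2 ^ k)] at h1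
  rw [div_lt_iff₀ hpos] at hk
  linarith

lemma φ_mem (x : ℝ) : φ x ∈ Ioo (0 : ℝ) 1 := by
  have h0 : 0 ≤ ∑' k, term x k := tsum_nonneg (term_nonneg x)
  have h1 := (summable_term x).sum_add_tsum_nat_add 1
  have h2 : ∑' i, term x (i + 1) ≤ w 0 / 3 := by
    have h3 : ∑' i, term x (i + (0 + 1)) ≤ ∑' i : ℕ, w 0 * (1 / 4 : ℝ) ^ (i + 1) := by
      apply (summable_tail x 0).tsum_le_tsum _ (hasSum_tail 0).summable
      intro i
      have h6 := term_le' x (i + (0 + 1))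
      have h7 := term_le 0 i
      rw [show 0 + 1 + i = i + (0 + 1) by ring] at h7
      exact h6.trans h7
    rw [(hasSum_tail 0).tsum_eq] at h3
    simpa using h3
  have h4 : w 0 = 1 / 4 := by norm_num [w, ex]
  have h5 := term_le' x 0
  rw [Finset.sum_range_one] at h1
  rw [h4] at h2 h5
  constructor
  · unfold φ; linarith
  · unfold φ; linarith

lemma measurable_E (k : ℕ) : Measurable (E k) := by
  unfold E
  have h1 : Measurable fun x : ℝ => ⌊x * 2 ^ dep k⌋ :=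
    Int.measurable_floor.comp (measurable_id.mul_const _)
  have h2 : Measurable fun x : ℝ => ⌊x * 2 ^ k⌋ :=
    Int.measurable_floor.comp (measurable_id.mul_const _)
  have h3 : Measurable fun n : ℤ => 2 * (n % 2 ^ k) := measurable_of_countable _
  have h4 : Measurable fun n : ℤ => n % 2 := measurable_of_countable _
  exact (h3.comp h1).add (h4.comp h2)

lemma measurable_φ : Measurable φ := by
  unfold φ
  apply Measurable.const_add
  have h1 : ∀ n : ℕ, Measurable fun x => ∑ k ∈ Finset.range n, term x k := by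
    intro n
    apply Finset.measurable_fun_sum
    intro k _
    unfold term
    apply Measurable.mul_const
    exact (measurable_of_countable (fun n : ℤ => (n : ℝ))).comp (measurable_E k)
  refine measurable_of_tendsto_metrizable h1 ?_
  rw [tendsto_pi_nhds]
  intro x
  exact (summable_term x).hasSum.tendsto_sum_nat

/-- the measure of the set where a digit block takes a given value -/
lemma volume_block (x r : ℝ) (_hr : 0 < r) (m k : ℕ) (c : ℤ) :
    volume {h : ℝ | 0 < h ∧ h < r ∧ ⌊(x + h) * 2 ^ m⌋ % 2 ^ k = c} ≤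
      ENNReal.ofReal (r * (1 / 2) ^ k + 2 * (1 / 2) ^ m) := by
  have hM : (0 : ℝ) < 2 ^ m := by positivity
  have hQ : (0 : ℤ) < 2 ^ k := by positivity
  have hQ' : (0 : ℝ) < 2 ^ k := by positivity
  set A : ℤ := ⌊x * 2 ^ m⌋ / 2 ^ k with hA
  set B : ℤ := ⌊(x + r) * 2 ^ m⌋ / 2 ^ k with hB
  have hsub : {h : ℝ | 0 < h ∧ h < r ∧ ⌊(x + h) * 2 ^ m⌋ % 2 ^ k = c} ⊆
      ⋃ j ∈ Finset.Icc A B, Ico (((2 ^ k * j + c : ℤ) : ℝ) / 2 ^ m - x)
        ((((2 ^ k * j + c : ℤ) : ℝ) + 1) / 2 ^ m - x) := by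
    rintro h ⟨h0, h1, h2⟩
    have e1 := Int.mul_ediv_add_emod ⌊(x + h) * 2 ^ m⌋ (2 ^ k)
    rw [h2] at e1
    rw [mem_iUnion₂]
    refine ⟨⌊(x + h) * 2 ^ m⌋ / 2 ^ k, ?_, ?_⟩
    · rw [Finset.mem_Icc]
      constructor
      · apply Int.ediv_le_ediv hQ
        apply Int.floor_le_floor
        gcongr
        linarith
      · apply Int.ediv_le_ediv hQ
        apply Int.floor_le_floor
        gcongr
    · rw [e1]
      constructor
      · rw [sub_le_iff_le_add, div_le_iff₀ hM, add_comm h]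
        exact Int.floor_le _
      · rw [lt_sub_iff_add_lt, lt_div_iff₀ hM, add_comm h]
        exact Int.lt_floor_add_one _
  refine (measure_mono hsub).trans ((measure_biUnion_finset_le _ _).trans ?_)
  have hvol : ∀ j ∈ Finset.Icc A B, volume (Ico (((2 ^ k * j + c : ℤ) : ℝ) / 2 ^ m - x)
      ((((2 ^ k * j + c : ℤ) : ℝ) + 1) / 2 ^ m - x)) = ENNReal.ofReal ((1 / 2) ^ m) := by
    intro j _
    rw [Real.volume_Ico]
    congr 1
    rw [one_div, inv_pow]
    ring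
  rw [Finset.sum_congr rfl hvol, Finset.sum_const, nsmul_eq_mul, Int.card_Icc,
    ← ENNReal.ofReal_natCast, ← ENNReal.ofReal_mul (by positivity)]
  apply ENNReal.ofReal_le_ofReal
  have hA1 : x * 2 ^ m / 2 ^ k - 1 ≤ A := by
    have e1 := Int.mul_ediv_add_emod ⌊x * 2 ^ m⌋ (2 ^ k)
    have e2 := Int.emod_lt_of_pos ⌊x * 2 ^ m⌋ hQ
    have e3 : ⌊x * 2 ^ m⌋ + 1 ≤ 2 ^ k * A + 2 ^ k := by rw [hA]; omega
    have e4 : ((⌊x * 2 ^ m⌋ : ℤ) : ℝ) + 1 ≤ 2 ^ k * A + 2 ^ k := by exact_mod_cast e3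
    have e5 := Int.lt_floor_add_one (x * 2 ^ m)
    rw [sub_le_iff_le_add, div_le_iff₀ hQ']
    nlinarith
  have hB1 : (B : ℝ) ≤ (x + r) * 2 ^ m / 2 ^ k := by
    have e1 := Int.mul_ediv_add_emod ⌊(x + r) * 2 ^ m⌋ (2 ^ k)
    have e2 := Int.emod_nonneg ⌊(x + r) * 2 ^ m⌋ hQ.ne'
    have e3 : 2 ^ k * B ≤ ⌊(x + r) * 2 ^ m⌋ := by rw [hB]; omega
    have e4 : 2 ^ k * (B : ℝ) ≤ ((⌊(x + r) * 2 ^ m⌋ : ℤ) : ℝ) := by exact_mod_cast e3
    have e5 := Int.floor_le ((x + r) * 2 ^ m)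
    rw [le_div_iff₀ hQ']
    nlinarith
  have hcard : (((B + 1 - A).toNat : ℕ) : ℝ) ≤ r * 2 ^ m / 2 ^ k + 2 := by
    have h0 : (0 : ℝ) ≤ r * 2 ^ m / 2 ^ k + 2 := by positivity
    rcases le_total 0 (B + 1 - A) with h | h
    · have e1 : (((B + 1 - A).toNat : ℕ) : ℝ) = ((B + 1 - A : ℤ) : ℝ) := by
        exact_mod_cast congrArg (fun n : ℤ => (n : ℝ)) (Int.toNat_of_nonneg h)
      rw [e1]
      push_cast
      have e2 : (x + r) * 2 ^ m / 2 ^ k = x * 2 ^ m / 2 ^ k + r * 2 ^ m / 2 ^ k := by ring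
      linarith
    · rw [Int.toNat_of_nonpos h]
      exact_mod_cast h0
  calc (((B + 1 - A).toNat : ℕ) : ℝ) * (1 / 2) ^ m
      ≤ (r * 2 ^ m / 2 ^ k + 2) * (1 / 2) ^ m := by gcongr
    _ = r * (1 / 2) ^ k + 2 * (1 / 2) ^ m := by
      rw [one_div, inv_pow, inv_pow]
      field_simp

lemma rr_succ_mul (k : ℕ) : (1 / 2 : ℝ) ^ dep k = rr (k + 1) * (1 / 2) ^ k := by
  rw [rr, ← pow_add]
  rfl

lemma scale (k : ℕ) : 2 ^ k * rr k ≤ 2 / 3 * w k := by
  have h1 : rr k = w k * (1 / 2) ^ (k + 1) := by rw [rr, w, pow_add]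
  have h2 : (2 : ℝ) ^ k * (1 / 2) ^ (k + 1) = 1 / 2 := by
    rw [pow_succ, ← mul_assoc, ← mul_pow]; norm_num
  have h3 : 2 ^ k * rr k = w k * (2 ^ k * (1 / 2) ^ (k + 1)) := by rw [h1]; ring
  rw [h3, h2]
  linarith [w_pos k]

/-- the bad set at scale `r ∈ (r_{k+1}, r_k]` -/
lemma bad_bound (x : ℝ) {k : ℕ} {r t : ℝ} (h1 : rr (k + 1) < r) (h2 : r ≤ rr k)
    (ht : t ≤ 2 ^ k) :
    (volume {h : ℝ | 0 < h ∧ h < r ∧ |(φ (x + h) - φ x) / h| < t}).toReal / r
      ≤ 3 * (1 / 2) ^ k := by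
  have hr : 0 < r := (rr_pos _).trans h1
  have hsub : {h : ℝ | 0 < h ∧ h < r ∧ |(φ (x + h) - φ x) / h| < t} ⊆
      {h : ℝ | 0 < h ∧ h < r ∧ ⌊(x + h) * 2 ^ dep k⌋ % 2 ^ k = ⌊x * 2 ^ dep k⌋ % 2 ^ k} := by
    rintro h ⟨h0, hlt, hq⟩
    refine ⟨h0, hlt, ?_⟩
    by_contra hne
    have hE : E k (x + h) ≠ E k x := by
      intro heq
      unfold E at heq
      apply hne
      omega
    have h3 := diff_ge hE
    rw [abs_div, abs_of_pos h0, div_lt_iff₀ h0] at hq
    have h4 := scale k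
    have h5 : t * h ≤ 2 ^ k * h := by gcongr
    have h6 : 2 ^ k * h ≤ 2 ^ k * rr k := by
      have : h ≤ rr k := (hlt.le).trans h2
      gcongr
    linarith
  have h3 := (measure_mono hsub).trans (volume_block x r hr (dep k) k _)
  have h4 : (volume {h : ℝ | 0 < h ∧ h < r ∧ |(φ (x + h) - φ x) / h| < t}).toReal ≤
      r * (1 / 2) ^ k + 2 * (1 / 2) ^ dep k := by
    apply ENNReal.toReal_le_of_le_ofReal _ h3
    positivity
  rw [div_le_iff₀ hr]
  refine h4.trans ?_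
  rw [rr_succ_mul]
  have h5 : rr (k + 1) * (1 / 2) ^ k ≤ r * (1 / 2) ^ k := by gcongr
  linarith

lemma tendsto_rr : Tendsto rr atTop (𝓝 0) := by
  refine squeeze_zero (fun k => (rr_pos k).le) (fun k => ?_)
    (tendsto_pow_atTop_nhds_zero_of_lt_one (by norm_num : (0 : ℝ) ≤ 1 / 2) (by norm_num))
  exact pow_le_pow_of_le_one (by norm_num) (by norm_num) (by omega)

lemma apLiminf_eq (x : ℝ) : apLiminf (fun h => |(φ (x + h) - φ x) / h|) = ⊤ := by
  rw [apLiminf, EReal.eq_top_iff_forall_lt]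
  intro T
  refine lt_of_lt_of_le (b := ((T + 1 : ℝ) : EReal)) (by exact_mod_cast lt_add_one T) ?_
  apply le_sSup
  refine ⟨T + 1, ?_, rfl⟩
  rw [mem_ofPred_eq, Metric.tendsto_nhds]
  intro η hη
  obtain ⟨k1, hk1⟩ := exists_pow_lt_of_lt_one (by positivity : 0 < η / 3)
    (by norm_num : (1 / 2 : ℝ) < 1)
  obtain ⟨k2, hk2⟩ := pow_unbounded_of_one_lt (T + 1) (by norm_num : (1 : ℝ) < 2)
  set k0 := max k1 k2
  have hmem : Ioo 0 (rr k0) ∈ 𝓝[>] (0 : ℝ) := Ioo_mem_nhdsGT (rr_pos k0)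
  filter_upwards [hmem] with r hr
  classical
  have hex : ∃ k, k0 ≤ k ∧ rr (k + 1) < r := by
    have h1 : ∀ᶠ k in atTop, rr (k + 1) < r :=
      ((tendsto_add_atTop_iff_nat 1).2 tendsto_rr).eventually_lt_const hr.1
    obtain ⟨k, hk⟩ := (h1.and (eventually_ge_atTop k0)).exists
    exact ⟨k, hk.2, hk.1⟩
  obtain ⟨hk0, hk⟩ := Nat.find_spec hex
  set k := Nat.find hex with hkdef
  have hk' : r ≤ rr k := by
    rcases Nat.eq_or_lt_of_le hk0 with h | h
    · rw [← h]; exact hr.2.le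
    · by_contra hcon
      push Not at hcon
      have h2 : k - 1 < Nat.find hex := by omega
      have h3 := Nat.find_min hex h2
      apply h3
      refine ⟨by omega, ?_⟩
      rwa [show k - 1 + 1 = k by omega]
  have ht : T + 1 ≤ 2 ^ k := by
    have h1 : (2 : ℝ) ^ k2 ≤ 2 ^ k :=
      pow_le_pow_right₀ (by norm_num) ((le_max_right k1 k2).trans hk0)
    linarith
  have hb := bad_bound x hk hk' ht
  have hb2 : (1 / 2 : ℝ) ^ k ≤ (1 / 2) ^ k1 :=
    pow_le_pow_of_le_one (by norm_num) (by norm_num) ((le_max_left k1 k2).trans hk0)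
  rw [Real.dist_eq, sub_zero, abs_of_nonneg (div_nonneg ENNReal.toReal_nonneg hr.1.le)]
  linarith

/-- There is an injective Borel measurable map `φ : (0,2) → (0,1)` such that at every point `x` of
`(0,2)` the approximate lower limit as `h → 0+` of `|(φ(x+h) - φ(x))/h|` is `+∞`. -/
theorem result : ∃ φ : ℝ → ℝ, Measurable φ ∧ InjOn φ (Ioo 0 2) ∧ MapsTo φ (Ioo 0 2) (Ioo 0 1) ∧
    ∀ x ∈ Ioo (0 : ℝ) 2, apLiminf (fun h => |(φ (x + h) - φ x) / h|) = ⊤ :=
  ⟨φ, measurable_φ, injOn_φ, fun x _ => φ_mem x, fun x _ => apLiminf_eq x⟩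

end Pool.Agent.Results.MP_868b62_an.DigitMap
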